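import Pool.Agent.helper1.P2T.AllG
import Pool.Agent.helper10.CSN.All
import Pool.Agent.helper11.CSG.OS1
import Pool.Agent.helper11.CSP.EMLO
import Pool.Agent.helper11.CSQ.ENT
import Pool.Agent.helper11.CSS.MTL
import Pool.Agent.helper12.CSA.MDG
import Pool.Agent.helper13.CSA.DHF
import Pool.Agent.helper13.CSA.UKA
import Pool.Agent.helper13.CSQ.DICT
import Pool.Agent.helper13.CSS.LGT
import Pool.Agent.helper13.CST.TIL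
import Pool.Agent.helper15.CSE.KBJ
import Pool.Agent.helper15.CSG.XUP
import Pool.Agent.helper16.CSE.KBU
import Pool.Agent.helper16.CSF.J3J
import Pool.Agent.helper16.CSG.FRX
import Pool.Agent.helper16.CSS.HFE
import Pool.Agent.helper16.CSZ.NIJ
import Pool.Agent.helper17.CSS.HLP
import Pool.Agent.helper18.CSS.ENU
import Pool.Agent.helper19.CSG.TLS
import Pool.Agent.helper19.CSG.ZUM
import Pool.Agent.helper19.CSS.HLM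
import Pool.Agent.helper2.CSG.SPA
import Pool.Agent.helper2.CSG.ePG
import Pool.Agent.helper2.CSQ.REL
import Pool.Agent.helper20.CSG.NZ
import Pool.Agent.helper20.CSG.VKF
import Pool.Agent.helper20.CSP.STGE
import Pool.Agent.helper20.CSQ.EXW
import Pool.Agent.helper21.CSG.CLB
import Pool.Agent.helper21.CSG.GDX
import Pool.Agent.helper21.CSG.fTHR
import Pool.Agent.helper21.CSS.HOL
import Pool.Agent.helper22.CSS.HPF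
import Pool.Agent.helper24.CSE.KBI
import Pool.Agent.helper24.CSL.CELJ
import Pool.Agent.helper26.CSG.eCRT
import Pool.Agent.helper26.CSL.ROL
import Pool.Agent.helper26.RT.AllE
import Pool.Agent.helper3.CSA.ACH
import Pool.Agent.helper3.CSG.EIM
import Pool.Agent.helper3.CSG.LVX
import Pool.Agent.helper3.CSG.VDC
import Pool.Agent.helper3.CSP.EVB
import Pool.Agent.helper3.CSQ.JAR
import Pool.Agent.helper30.CSG.XGR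
import Pool.Agent.helper30.CSS.ECR
import Pool.Agent.helper30.CSS.FEA
import Pool.Agent.helper31.CSP.PCB
import Pool.Agent.helper31.CSQ.PSL
import Pool.Agent.helper31.CSS.ELM
import Pool.Agent.helper32.CSA.AFB
import Pool.Agent.helper32.CSA.CSM
import Pool.Agent.helper32.CSA.ZC
import Pool.Agent.helper32.CSG.FLE
import Pool.Agent.helper32.CSG.PGD
import Pool.Agent.helper32.CSG.ZRL
import Pool.Agent.helper32.CSG.ePGB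
import Pool.Agent.helper32.CSG.fSQR
import Pool.Agent.helper33.CSG.FLC
import Pool.Agent.helper33.CSP.EKNO
import Pool.Agent.helper34.CSA.MFS
import Pool.Agent.helper34.CSG.XNY
import Pool.Agent.helper34.CSQ.PSF
import Pool.Agent.helper34.CSS.FES
import Pool.Agent.helper35.CSE.CVF
import Pool.Agent.helper36.CSG.FLD
import Pool.Agent.helper36.CSG.OS2
import Pool.Agent.helper38.CSG.HLX
import Pool.Agent.helper38.CSG.XEX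
import Pool.Agent.helper38.CSG.eFST
import Pool.Agent.helper38.CSG.fSIZ
import Pool.Agent.helper38.CSP.ZOC
import Pool.Agent.helper38.CSS.EWM
import Pool.Agent.helper38.CSZ.OUT
import Pool.Agent.helper39.CSA.LMC
import Pool.Agent.helper39.CSA.OUT2
import Pool.Agent.helper39.CSE.BAS
import Pool.Agent.helper39.CSF.JAT
import Pool.Agent.helper39.CSG.SPC
import Pool.Agent.helper39.CSG.XCL
import Pool.Agent.helper39.CSG.ZPG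
import Pool.Agent.helper39.CSG.eIDX
import Pool.Agent.helper39.CSP.STQ
import Pool.Agent.helper39.CSQ.FRTX
import Pool.Agent.helper39.CSS.EWB
import Pool.Agent.helper39.CST.FRB
import Pool.Agent.helper4.CSG.OSA
import Pool.Agent.helper4.CSG.TPX
import Pool.Agent.helper4.CSG.VFR
import Pool.Agent.helper4.CSG.eATR
import Pool.Agent.helper4.EZ.Base
import Pool.Agent.helper40.CSE.FXF
import Pool.Agent.helper40.CSG.OSX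
import Pool.Agent.helper40.CST.HBI
import Pool.Agent.helper44.CSA.MDC
import Pool.Agent.helper44.CSA.MRM
import Pool.Agent.helper44.CSG.ROX
import Pool.Agent.helper46.CSF.TLX
import Pool.Agent.helper46.CSG.BRK
import Pool.Agent.helper46.CSG.OSQ
import Pool.Agent.helper46.CSGC.CNT
import Pool.Agent.helper47.CSG.OSR
import Pool.Agent.helper47.CSP.EDGN
import Pool.Agent.helper49.CSG.CHX
import Pool.Agent.helper49.CSS.HML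
import Pool.Agent.helper5.CSG.eSTP
import Pool.Agent.helper50.CSA.OUT
import Pool.Agent.helper50.CSG.PZ2
import Pool.Agent.helper50.CSG.SSX
import Pool.Agent.helper50.CSG.fOUT
import Pool.Agent.helper51.CSA.LCH
import Pool.Agent.helper51.CSF.J1
import Pool.Agent.helper51.CSG.INC
import Pool.Agent.helper51.CSG.XUN
import Pool.Agent.helper51.CSL.TNN
import Pool.Agent.helper51.CSQ.KER
import Pool.Agent.helper52.CSX.ToZ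
import Pool.Agent.helper53.CSG.OSP
import Pool.Agent.helper53.CSG.VCF
import Pool.Agent.helper53.CSG.XUD
import Pool.Agent.helper53.CSG.eBJ
import Pool.Agent.helper53.CSL.LDG
import Pool.Agent.helper53.CSS.EMX
import Pool.Agent.helper53.CSS.EUN
import Pool.Agent.helper54.CSG.VNC
import Pool.Agent.helper56.CSZ.DBL
import Pool.Agent.helper57.CSS.HIP
import Pool.Agent.helper58.CSG.PTC
import Pool.Agent.helper58.CSG.VNH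
import Pool.Agent.helper58.CSL.DBJ
import Pool.Agent.helper59.CSS.HPE
import Pool.Agent.helper60.CSF.XW
import Pool.Agent.helper60.FIN.All
import Pool.Agent.helper61.CS.SLI
import Pool.Agent.helper61.CSW.PP.All
import Pool.Agent.helper62.CSF.CGJ
import Pool.Agent.helper62.CSF.CHJ
import Pool.Agent.helper62.CSF.DSJ
import Pool.Agent.helper62.CSF.EXD
import Pool.Agent.helper62.CSF.FIA
import Pool.Agent.helper62.CSF.FIH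
import Pool.Agent.helper62.CSF.FINC
import Pool.Agent.helper62.CSF.FIX
import Pool.Agent.helper62.CSF.NRX
import Pool.Agent.helper62.CSF.XZ
import Pool.Agent.helper62.CSGC.BIG
import Pool.Agent.helper62.CSGC.CFE
import Pool.Agent.helper62.CSGC.CGP
import Pool.Agent.helper62.CSGC.CGZ
import Pool.Agent.helper62.CSGC.CLN
import Pool.Agent.helper62.CSGC.CPR
import Pool.Agent.helper62.CSGC.CRE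
import Pool.Agent.helper62.CSGC.CRW
import Pool.Agent.helper62.CSGC.CXB
import Pool.Agent.helper62.CSGC.CXF
import Pool.Agent.helper62.CSGC.EXH
import Pool.Agent.helper62.CSGC.EXV
import Pool.Agent.helper62.CSGC.FKC
import Pool.Agent.helper62.CSGC.IJI
import Pool.Agent.helper62.CSGC.INF
import Pool.Agent.helper62.CSGC.INV
import Pool.Agent.helper62.CSGC.LSH
import Pool.Agent.helper62.CSGC.PHQ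
import Pool.Agent.helper62.CSGC.SHG
import Pool.Agent.helper62.CSGC.TSH
import Pool.Agent.helper62.CSU.Top
import Pool.Agent.helper62.CSZ.CEL
import Pool.Agent.helper62.CSZ.KBD
import Pool.Agent.helper62.CSZ.LOC
import Pool.Agent.helper62.CSZ.LRS
import Pool.Agent.helper62.CSZ.NBH
import Pool.Agent.helper62.CSZ.OUTY
import Pool.Agent.helper62.CSZ.PHS
import Pool.Agent.helper62.CSZ.SEP
import Pool.Agent.helper62.CSZ.SHF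
import Pool.Agent.helper62.CSZ.TWO
import Pool.Agent.helper63.CSA.FSE
import Pool.Agent.helper63.CSG.eSRC
import Pool.Agent.helper63.CSG.fREL
import Pool.Agent.helper63.CSP.KNX
import Pool.Agent.helper64.CSA.MBT
import Pool.Agent.helper64.CSG.CHU
import Pool.Agent.helper64.CSG.END
import Pool.Agent.helper64.CSG.GDP
import Pool.Agent.helper64.CSG.PZ1
import Pool.Agent.helper64.CSG.VSV
import Pool.Agent.helper64.CSS.EIN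
import Pool.Agent.helper65.CSA.NRA
import Pool.Agent.helper65.CSG.CR2
import Pool.Agent.helper65.CSG.fSTD
import Pool.Agent.helper67.CSA.CMS
import Pool.Agent.helper67.CSA.TRN
import Pool.Agent.helper67.CSG.OSW
import Pool.Agent.helper67.CSS.HPB
import Pool.Agent.helper68.CSF.FWW
import Pool.Agent.helper7.CSG.fDIH
import Pool.Agent.helper70.CSA.DRC
import Pool.Agent.helper70.CSE.FEW
import Pool.Agent.helper70.CSG.OSL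
import Pool.Agent.helper70.CSL.AFF
import Pool.Agent.helper71.CSS.HUN
import Pool.Agent.helper72.CSG.XUA
import Pool.Agent.helper72.CSP.ESTD
import Pool.Agent.helper73.CSG.OSM
import Pool.Agent.helper73.CSL.AFP
import Pool.Agent.helper74.CSA.FST
import Pool.Agent.helper74.CSL.CTR
import Pool.Agent.helper75.CSA.LMU
import Pool.Agent.helper75.CSA.LSQ
import Pool.Agent.helper75.CSF.J3
import Pool.Agent.helper75.CSG.RRG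
import Pool.Agent.helper76.CSA.DRA
import Pool.Agent.helper76.CSG.OS3
import Pool.Agent.helper76.CSS.HNU
import Pool.Agent.helper77.CSA.MDN
import Pool.Agent.helper77.CSF.J2
import Pool.Agent.helper77.CSG.ZO
import Pool.Agent.helper77.CSS.ESC
import Pool.Agent.helper77.CSS.ESI
import Pool.Agent.helper77.CSS.JIV
import Pool.Agent.helper77.CSS.NLV
import Pool.Agent.helper79.CSG.XTC
import Pool.Agent.helper79.CSG.fINV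
import Pool.Agent.helper79.CSP.S0S
import Pool.Agent.helper79.CSS.HCF
import Pool.Agent.helper8.CSA.MQ
import Pool.Agent.helper8.CSS.HEQ
import Pool.Agent.helper82.CSQ.FLD
import Pool.Agent.helper82.CSS.HPQ
import Pool.Agent.helper82.CST.GPG
import Pool.Agent.helper83.CSZ.CHE
import Pool.Agent.helper84.CSA.GLS
import Pool.Agent.helper84.CSG.CRR
import Pool.Agent.helper84.CSG.VSM
import Pool.Agent.helper84.CSL.ROF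
import Pool.Agent.helper84.CSS.HBD
import Pool.Agent.helper84.CSS.MIT
import Pool.Agent.helper85.CSE.PAR
import Pool.Agent.helper85.CSQ.MXC
import Pool.Agent.helper85.CSS.LVS
import Pool.Agent.helper87.CSA.GDS
import Pool.Agent.helper87.CSG.VFC
import Pool.Agent.helper87.CSG.eCMP
import Pool.Agent.helper87.CSQ.BIN
import Pool.Agent.helper87.CSS.EPR
import Pool.Agent.helper87.CSZ.EFC
import Pool.Agent.helper88.CSP.EOUT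
import Pool.Agent.helper88.CSP.GDY
import Pool.Agent.helper88.CSQ.FRTS
import Pool.Agent.helper89.CSA.JN0
import Pool.Agent.helper89.CSS.HQB
import Pool.Agent.helper89.CST.VRT
import Pool.Agent.helper9.CSS.LGM
import Pool.Agent.helper91.CS.AllVF
import Pool.Agent.helper93.CSL.ROD
import Pool.Agent.helper93.CSS.OMP
import Pool.Agent.helper95.CSA.UKY
import Pool.Agent.helper96.CSG.OSS
import Pool.Agent.helper96.CSG.TLX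
import Pool.Agent.helper97.CSA.UFA
import Pool.Agent.helper97.CSG.eTGT
import Pool.Agent.helper97.CSS.HGL
import Pool.Agent.helper98.CSE.LNF
import Pool.Agent.helper98.CSS.ECU
import Pool.Agent.helper98.P2F.All
import Pool.Agent.helper99.CSGC.ARO
import Pool.Agent.helper99.CSL.MUL
import Pool.Agent.helper99.CSP.EFLV
import Pool.Agent.helper99.CSZ.CTB

/-!
# Class S (project csw:, MP_70a088_an): assembly (generated)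
-/

set_option autoImplicit false

noncomputable section

namespace CSM

theorem m_P2S_XGR : P2S.XGR_stmt := P2S.XGR CSS.MMB_t CSS.LGD
theorem m_P2S_XEX : P2S.XEX_stmt := P2S.XEX m_P2S_XGR YPPS.LGB_p CSS.LGD CSS.NPL_t
theorem m_P2S_XTC : P2S.XTC_stmt := P2S.XTC YPPS.LGB_p CSS.LUQ
theorem m_P2S_XCL : P2S.XCL_stmt := P2S.XCL m_P2S_XTC
theorem m_P2S_XNY : P2S.XNY_stmt := P2S.XNY m_P2S_XCL
theorem m_P2S_XUP : P2S.XUP_stmt := P2S.XUP m_P2S_XNY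
theorem m_P2S_XUN : P2S.XUN_stmt := P2S.XUN m_P2S_XNY
theorem m_P2S_XUA : P2S.XUA_stmt := P2S.XUA P2S.XUD
theorem m_P2S_LVX : P2S.LVX_stmt := P2S.LVX YPPS.RAX_p m_P2S_XEX m_P2S_XUP m_P2S_XUN m_P2S_XUA
theorem m_CSS_EWB : CSS.EWB_stmt := CSS.EWB YPPS.RAX_p CSS.EXD_t
theorem m_CSS_EWM : CSS.EWM_stmt := CSS.EWM CSS.ECR CSS.EPR CSS.EUN
theorem m_CSS_EMX : CSS.EMX_stmt := CSS.EMX CSS.ENU
theorem m_CSS_ESC : CSS.ESC_stmt := CSS.ESC CSS.ECU m_CSS_EWB m_CSS_EWM m_CSS_EMX CSS.ELM CSF.AllV_VCN CSF.AllV_VWK CSS.IFC_t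
theorem m_CSS_EIN : CSS.EIN_stmt := CSS.EIN CSS.ENU CSS.IFC_t
theorem m_CSS_ESI : CSS.ESI_stmt := CSS.ESI m_CSS_ESC m_CSS_EIN CSS.ENU CSS.IFC_t
theorem m_P2S_TPX : P2S.TPX_stmt := P2S.TPX m_P2S_LVX m_CSS_ESI CSS.ENU CSS.IFC_t
theorem m_P2S_SSX : P2S.SSX_stmt := P2S.SSX CSS.IFC_t CSS.MTL CSS.JIV
theorem m_P2S_VKF : P2S.VKF_stmt := P2S.VKF CSS.IFC_t
theorem m_P2S_VNH : P2S.VNH_stmt := P2S.VNH CSS.IFC_t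
theorem m_P2S_VCF : P2S.VCF_stmt := P2S.VCF CSS.IFC_t m_P2S_VKF m_P2S_VNH
theorem m_P2S_VSM : P2S.VSM_stmt := P2S.VSM m_P2S_VKF m_P2S_VCF PM.MM_TKO
theorem m_P2S_FRS : P2S.FRS_stmt := P2S.FRS PM.MM_TDF PM.MM_TPM m_P2S_VCF m_P2S_VSM
theorem m_P2S_DIC : P2S.DIC_stmt := P2S.DIC m_P2S_FRS PM.MM_TDF PM.MM_TPM m_P2S_VCF V3.TDE
theorem m_P2S_PTC : P2S.PTC_stmt := P2S.PTC PM.MM_TDF PM.MM_TPM m_P2S_VCF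
theorem m_P2S_TLS : P2S.TLS_stmt := P2S.TLS PM.MM_TDF m_P2S_VCF V3.TDE m_P2S_FRS m_P2S_DIC m_P2S_PTC
theorem m_P2S_VFC : P2S.VFC_stmt := P2S.VFC m_P2S_VCF PM.MM_TDF
theorem m_P2AS_DHF : P2AS.DHF_stmt := P2AS.DHF PM.MM_TDF PM.MM_TPM m_P2S_VCF m_P2S_VFC
theorem m_P2S_FRX : P2S.FRX_stmt := P2S.FRX PM.MM_TDF m_P2S_VCF P2Z.KO2_m
theorem m_P2S_TLX : P2S.TLX_stmt := P2S.TLX m_P2S_FRS BR.Z_TMO m_P2S_VCF m_P2S_VKF PM.MM_TDF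
theorem m_P2S_RRG : P2S.RRG_stmt := P2S.RRG m_CSS_EIN CSS.ENU
theorem m_P2S_PGR : P2S.PGR_stmt := P2S.PGR PL.LIV m_P2S_RRG m_P2S_FRS m_P2S_TLS m_P2S_VCF PM.MM_TDF
theorem m_P2S_CR2 : P2S.CR2_stmt := P2S.CR2 m_P2S_PGR m_P2S_TLS m_P2S_FRS
theorem m_P2S_SPA : P2S.SPA_stmt := P2S.SPA m_P2S_FRX m_P2S_FRS m_P2S_TLX m_P2S_TLS m_P2S_PTC m_P2S_DIC m_P2S_CR2 P2M.ZRO_m PM.MM_TDF PM.MM_TPM PM.MM_TPT m_P2S_VKF m_P2S_VCF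
theorem m_P2S_SPC : P2S.SPC_stmt := P2S.SPC m_P2S_FRX m_P2S_FRS m_P2S_TLX m_P2S_TLS m_P2S_PTC m_P2S_DIC m_P2S_CR2 P2M.ZRO_m PM.MM_TDF PM.MM_TPM PM.MM_TKO m_P2S_VKF m_P2S_VCF
theorem m_P2AS_FSE : P2AS.FSE_stmt := P2AS.FSE m_P2S_SPA m_P2S_SPC PM.MM_TDF PM.MM_TPT PM.MM_TSP PM.MM_TKO P2AM.AEU_m m_P2S_VCF
theorem m_P2AS_ACH : P2AS.ACH_stmt := P2AS.ACH PM.MM_TDF PM.MM_TSP PM.MM_TIN PM.MM_THC m_P2S_VCF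
theorem m_P2AS_FST : P2AS.FST_stmt := P2AS.FST m_P2AS_FSE m_P2AS_ACH P2AM.AHC_m P2AM.AEU_m PM.MM_TKO PM.MM_TDF PM.MM_TIN m_P2S_VKF m_P2S_VCF
theorem m_P2AS_HVB : P2AS.HVB_stmt := P2AS.HVB m_P2S_SPC m_P2AS_ACH P2AM.AHC_m P2AM.AEU_m PM.MM_TIN m_P2S_VCF
theorem m_P2AS_ZC : P2AS.ZC_stmt := P2AS.ZC P2A.JET m_P2AS_ACH HY.COV PM.MM_TKO PM.MM_TPT PM.MM_TDF m_P2S_VCF
theorem m_P2AS_JN0 : P2AS.JN0_stmt := P2AS.JN0 HY.MOB PL.DJM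
theorem m_P2AS_MBT : P2AS.MBT_stmt := P2AS.MBT PM.MM_TDF PM.MM_TPT m_P2S_VKF m_P2S_VCF
theorem m_P2AS_CMS : P2AS.CMS_stmt := P2AS.CMS m_P2AS_ZC m_P2AS_JN0 m_P2AS_ACH PL.DJM m_P2AS_MBT PM.MM_TDF PM.MM_TPM PM.MM_TIN PM.MM_TPT m_P2S_VKF m_P2S_VCF
theorem m_P2AS_UFA : P2AS.UFA_stmt := P2AS.UFA PM.MM_TSP m_P2S_VCF
theorem m_P2AS_UKA : P2AS.UKA_stmt := P2AS.UKA m_P2AS_UFA PM.MM_TDF PM.MM_TPT PM.MM_TSP PM.MM_TIN m_P2S_VKF m_P2S_VCF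
theorem m_P2AS_UKY : P2AS.UKY_stmt := P2AS.UKY m_P2AS_UKA m_P2AS_ZC P2AM.JEN_m PM.MM_TPT m_P2S_VKF m_P2S_VCF
theorem m_P2AS_LMC : P2AS.LMC_stmt := P2AS.LMC m_P2AS_UKY P2A.CEL P2AM.AEU_m PM.MM_TDF PM.MM_TPT m_P2S_VKF m_P2S_VCF
theorem m_P2AS_LMU : P2AS.LMU_stmt := P2AS.LMU m_P2AS_LMC m_P2AS_UFA P2AM.UFB_m m_P2AS_ZC P2AM.JEN_m PM.MM_TDF m_P2S_VKF m_P2S_VCF
theorem m_P2AS_CSM : P2AS.CSM_stmt := P2AS.CSM m_P2AS_LMU m_P2AS_UFA m_P2AS_MBT PM.MM_TSP PM.MM_TPT PM.MM_TDF m_P2S_VKF m_P2S_VCF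
theorem m_P2AS_GLS : P2AS.GLS_stmt := P2AS.GLS m_P2AS_MBT PM.MM_TDF m_P2S_VKF m_P2S_VCF
theorem m_P2AS_GDS : P2AS.GDS_stmt := P2AS.GDS m_P2AS_CMS m_P2AS_CSM m_P2AS_GLS
theorem m_P2AS_LSQ : P2AS.LSQ_stmt := P2AS.LSQ CSS.LIF_t CSF.SLI PM.MM_TDF PM.MM_TPM PM.MM_TIN m_P2S_VKF m_P2S_VCF
theorem m_P2AS_LCH : P2AS.LCH_stmt := P2AS.LCH m_P2AS_LSQ PM.MM_THC PM.MM_TDF m_P2S_VKF m_P2S_VCF CSS.IFC_t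
theorem m_P2AS_MQ : P2AS.MQ_stmt := P2AS.MQ m_P2AS_FST m_P2AS_HVB P2AM.UGR_m P2AM.NSP_m m_P2AS_GDS m_P2AS_LCH m_P2AS_ACH m_P2AS_DHF PM.MM_TDF PM.MM_TSP m_P2S_VFC m_P2S_VKF m_P2S_VCF
theorem m_P2AS_DRC : P2AS.DRC_stmt := P2AS.DRC HY.MOB PM.MM_TDF m_P2S_VCF
theorem m_P2AS_MFS : P2AS.MFS_stmt := P2AS.MFS m_P2AS_MQ m_P2AS_DHF m_P2AS_DRC m_P2S_VCF m_P2S_VKF
theorem m_P2AS_MDC : P2AS.MDC_stmt := P2AS.MDC m_P2S_VKF m_P2S_VCF m_P2S_VFC PM.MM_TDF m_P2S_FRS m_P2S_TLS PL.DCO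
theorem m_P2AS_MDN : P2AS.MDN_stmt := P2AS.MDN P2S.FLD m_P2S_VKF m_P2S_VCF PM.MM_TDF
theorem m_P2AS_MDG : P2AS.MDG_stmt := P2AS.MDG EZ.COP_b m_P2S_VCF PM.MM_TDF PM.MM_TPM m_P2S_FRS m_P2S_TLS m_P2AS_MDN m_P2AS_MDC
theorem m_P2AS_MRM : P2AS.MRM_stmt := P2AS.MRM HY.MOB PM.MM_TDF m_P2S_VCF m_P2AS_DHF m_P2S_TLS PL.DLM PL.DCO m_P2AS_MFS m_P2AS_MDC m_P2AS_MDG
theorem m_P2AS_OUT : P2AS.OUT_stmt := P2AS.OUT HY.MOB m_P2S_TLS P2AM.DNI_m m_P2AS_MRM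
theorem m_P2AS_AFB : P2AS.AFB_stmt := P2AS.AFB PL.LIV m_P2S_RRG m_P2S_FRS PM.MM_TDF m_P2S_VCF
theorem m_P2AS_NRA : P2AS.NRA_stmt := P2AS.NRA m_P2AS_AFB m_P2AS_HVB m_P2S_PTC m_P2S_FRS BR.Z_TMO V3.TDE P2TG.KO3_m PM.MM_TKO PM.MM_TDF PM.MM_TPM PM.MM_TPT PM.MM_TSP m_P2S_VKF m_P2S_VCF
theorem m_P2AS_DRA : P2AS.DRA_stmt := P2AS.DRA CSS.IFC_t m_P2S_FRS BR.Z_TMO PM.MM_TKO PM.MM_TDF PM.MM_TIN m_P2S_VKF m_P2S_VCF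
theorem m_P2AS_TRN : P2AS.TRN_stmt := P2AS.TRN P2TG.DIA_m m_P2AS_NRA m_P2AS_DRA
theorem m_P2AS_OUT2 : P2AS.OUT2_stmt := P2AS.OUT2 m_P2AS_OUT m_P2AS_TRN
theorem m_P2S_FLC : P2S.FLC_stmt := P2S.FLC m_P2S_VSM m_P2S_VCF PM.MM_TIN PM.MM_TDF
theorem m_P2SF_STGE : P2SF.STGE_stmt := P2SF.STGE m_P2AS_OUT2 m_P2S_FLC
theorem m_P2S_ePG : P2S.ePG_stmt := P2S.ePG m_P2S_FRS m_P2S_TLS m_P2S_PGR
theorem m_P2S_eBJ : P2S.eBJ_stmt := P2S.eBJ CSS.IFC_t PM.MM_TDF m_P2S_VKF m_P2S_VCF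
theorem m_P2S_eCMP : P2S.eCMP_stmt := P2S.eCMP BR.Z_TMO m_P2S_FRS m_P2S_TLS m_P2S_eBJ
theorem m_P2S_VNC : P2S.VNC_stmt := P2S.VNC m_P2S_VKF m_P2S_VCF PM.MM_TPT PM.MM_TIN PM.MM_TKO
theorem m_P2S_VFR : P2S.VFR_stmt := P2S.VFR m_P2S_VSM PM.MM_TKO m_P2S_VCF
theorem m_P2S_VSV : P2S.VSV_stmt := P2S.VSV m_P2S_VNC m_P2S_VFR m_P2S_VCF PM.MM_TPT
theorem m_P2S_OS1 : P2S.OS1_stmt := P2S.OS1 CSS.LIF_t m_P2S_VKF m_P2S_VCF PM.MM_TDF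
theorem m_P2S_OS2 : P2S.OS2_stmt := P2S.OS2 CSS.LUQ m_P2S_VCF PM.MM_TDF
theorem m_P2S_OS3 : P2S.OS3_stmt := P2S.OS3 CSS.LIF_t CSS.LUQ m_P2S_VCF PM.MM_TDF
theorem m_P2S_OSS : P2S.OSS_stmt := P2S.OSS m_P2S_OS1 m_P2S_OS2 m_P2S_OS3 m_P2S_VCF PM.MM_TDF
theorem m_P2S_CHX : P2S.CHX_stmt := P2S.CHX PM.MM_TDF m_P2S_VCF
theorem m_P2S_CHU : P2S.CHU_stmt := P2S.CHU m_P2S_VCF PM.MM_TDF
theorem m_P2S_OSA : P2S.OSA_stmt := P2S.OSA CSS.LIF_t m_P2S_VCF m_P2S_VFC PM.MM_TDF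
theorem m_P2S_CRR : P2S.CRR_stmt := P2S.CRR m_P2S_VCF PM.MM_TDF PM.MM_TPT PM.MM_TSP
theorem m_P2S_OSQ : P2S.OSQ_stmt := P2S.OSQ BR.Z_TMO V3.TDE HY.MOB
theorem m_P2S_OSW : P2S.OSW_stmt := P2S.OSW P2M.eHUR_m BR.Z_TMO
theorem m_P2S_OSP : P2S.OSP_stmt := P2S.OSP PM.MM_TDF PM.MM_TPM PM.MM_TPT PM.MM_TIN HY.MOB EZ.COP_b m_P2S_VCF m_P2S_CRR m_P2S_OSQ m_P2S_OSW
theorem m_P2S_OSR : P2S.OSR_stmt := P2S.OSR m_P2S_CRR m_P2S_OSQ m_P2S_OSW m_P2S_VCF m_P2S_VFC PM.MM_TDF PM.MM_TPM PM.MM_TIN HY.MOB EZ.COP_b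
theorem m_P2S_OSL : P2S.OSL_stmt := P2S.OSL m_P2S_CRR m_P2S_OSQ m_P2S_OSW m_P2S_CHX m_P2S_VCF PM.MM_TDF PM.MM_TPM PM.MM_TIN P2M.eHUR_m HY.MOB RT.AllE_KO0
theorem m_P2S_OSM : P2S.OSM_stmt := P2S.OSM m_P2S_CRR m_P2S_OSQ m_P2S_OSW m_P2S_CHX m_P2S_VCF PM.MM_TDF PM.MM_TPM PM.MM_TIN HY.MOB RT.AllE_KO0 P2M.eHUR_m
theorem m_P2S_OSX : P2S.OSX_stmt := P2S.OSX m_P2S_VSV m_P2S_OSS m_P2S_CHX m_P2S_CHU m_P2S_OSA m_P2S_OSP m_P2S_OSR m_P2S_OSL m_P2S_OSM m_P2S_VKF m_P2S_VCF PM.MM_TDF PM.MM_TPT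
theorem m_P2S_eIDX : P2S.eIDX_stmt := P2S.eIDX m_P2S_eCMP m_P2S_eBJ m_P2S_OSX P2M.eRIG_m PLC.FIB_c HY.MOB PM.MM_TDF
theorem m_P2S_eCRT : P2S.eCRT_stmt := P2S.eCRT m_P2S_eBJ P2M.eHUR_m PM.MM_TDF m_P2S_VCF m_P2S_VKF m_P2S_VNC CSS.IFC_t
theorem m_P2S_eFST : P2S.eFST_stmt := P2S.eFST m_P2S_eCMP m_P2S_eBJ m_P2S_FRS P2M.eHUR_m P2M.eINJ_m m_P2S_ePG PLC.EXT_c P2M.eRIG_m PM.MM_TDF m_P2S_VCF
theorem m_P2S_eSTP : P2S.eSTP_stmt := P2S.eSTP PM.MM_TDF PLC.CRI_c m_P2S_TLX PLC.CLA_c P2M.eRIG_m P2M.eCYS_m P2M.ePUN_m m_P2S_eCMP m_P2S_ePG m_P2S_eIDX m_P2S_eCRT m_P2S_eFST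
theorem m_P2S_ePGB : P2S.ePGB_stmt := P2S.ePGB m_P2S_FRS m_P2S_TLS m_P2S_PGR
theorem m_P2S_eSRC : P2S.eSRC_stmt := P2S.eSRC m_P2S_FRX m_P2S_FRS m_P2S_TLX m_P2S_ePG m_P2S_ePGB P2M.eLD2_m P2M.eTHR_m P2M.eHUR_m m_P2S_eBJ PM.MM_TIN m_P2S_VCF PM.MM_TDF
theorem m_P2S_eTGT : P2S.eTGT_stmt := P2S.eTGT m_P2S_eSRC m_P2S_FRX m_P2S_FRS m_P2S_TLX m_P2S_TLS m_P2S_ePGB PM.MM_TDF PM.MM_TKO PM.MM_TSP PM.MM_TIN m_P2S_VCF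
theorem m_P2S_eATR : P2S.eATR_stmt := P2S.eATR PM.MM_TDF PM.MM_TKO PM.MM_TSP PM.MM_TPT m_P2S_VKF m_P2S_VCF
theorem m_P2S_NZ : P2S.NZ_stmt := P2S.NZ m_P2S_ePG m_P2S_eSTP m_P2S_eCMP P2M.ePUN_m m_P2S_eTGT m_P2S_eATR PM.MM_TPT PM.MM_TDF PM.MM_TIN m_P2S_VCF m_P2S_VKF
theorem m_P2S_fDIH : P2S.fDIH_stmt := P2S.fDIH m_P2S_NZ PLC.CLA_c PLC.LSS_c m_P2S_TLS
theorem m_P2S_fSTD : P2S.fSTD_stmt := P2S.fSTD m_P2S_FRS m_P2S_TLX m_P2S_NZ m_P2S_eFST m_P2S_eIDX PLC.CLA_c m_P2S_eCMP PLC.HTM_c PLC.CRI_c PLC.FIB_c m_P2S_eCRT P2M.eLD2_m P2M.eHUR_m m_P2S_eBJ PM.MM_TDF m_P2S_VCF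
theorem m_P2S_fSIZ : P2S.fSIZ_stmt := P2S.fSIZ m_P2S_OSS m_P2S_VSV m_P2S_VFC m_P2S_VCF m_P2S_VKF PM.MM_TDF RT.AllE_KO0
theorem m_P2S_fTHR : P2S.fTHR_stmt := P2S.fTHR m_P2S_FRX m_P2S_FRS m_P2S_TLX m_P2S_fDIH m_P2S_fSTD m_P2S_fSIZ P2M.fMID_m m_P2S_eTGT m_P2S_VCF PM.MM_TPM PM.MM_TSP PM.MM_TIN PM.MM_TKO
theorem m_P2S_fSQR : P2S.fSQR_stmt := P2S.fSQR PL.LIV
theorem m_P2S_fINV : P2S.fINV_stmt := P2S.fINV m_P2S_fSQR P2M.eLD2_m m_P2S_eBJ m_P2S_FRS m_P2S_TLS PM.MM_TDF PM.MM_TPM PM.MM_TPT PM.MM_TKO m_P2S_VKF m_P2S_VCF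
theorem m_P2S_fOUT : P2S.fOUT_stmt := P2S.fOUT CSS.IFC_t m_P2S_FRS m_P2S_TLS PM.MM_TDF PM.MM_TPM PM.MM_TPT PM.MM_TKO m_P2S_VKF m_P2S_VCF
theorem m_P2S_fREL : P2S.fREL_stmt := P2S.fREL m_P2S_fINV m_P2S_fOUT m_P2S_RRG m_P2S_TLS PM.MM_TDF PM.MM_TIN m_P2S_VCF BR.Z_TMO V3.TDE
theorem m_P2S_END : P2S.END_stmt := P2S.END m_P2S_fTHR m_P2S_fREL
theorem m_P2S_GDP : P2S.GDP_stmt := P2S.GDP PLB.NFP_b m_P2S_VFC m_P2S_VCF m_P2S_VKF PM.MM_TDF PM.MM_TPM RT.AllE_KO0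
theorem m_P2S_BRK : P2S.BRK_stmt := P2S.BRK CSS.IFC_t CSS.LUQ CSS.LIF_t
theorem m_P2S_CLB : P2S.CLB_stmt := P2S.CLB CSS.IFC_t m_P2S_VKF m_P2S_VCF m_P2S_VFC m_P2S_VSM m_P2S_GDP m_P2S_BRK PLB.PBG_b PM.MM_TDF PM.MM_TSP PM.MM_TKO P2TG.KO3_m
theorem m_CSS_OMP : CSS.OMP_stmt := CSS.OMP CSS.MTL
theorem m_CSS_HIP : CSS.HIP_stmt := CSS.HIP CSS.NPL_t YPPS.LGB_p
theorem m_CSS_HPB : CSS.HPB_stmt := CSS.HPB CSS.HNU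
theorem m_CSS_HPF : CSS.HPF_stmt := CSS.HPF CSS.IFC_t CSS.HNU m_CSS_HPB m_CSS_EIN
theorem m_CSS_HLP : CSS.HLP_stmt := CSS.HLP CSS.IFC_t m_CSS_OMP m_CSS_HIP CSS.HCF m_CSS_HPF
theorem m_CSS_HGL : CSS.HGL_stmt := CSS.HGL CSS.HUN
theorem m_CSS_HML : CSS.HML_stmt := CSS.HML m_CSS_HLP m_CSS_HPB m_CSS_HGL
theorem m_CSS_HPQ : CSS.HPQ_stmt := CSS.HPQ CSS.HUN
theorem m_CSS_HEQ : CSS.HEQ_stmt := CSS.HEQ CSS.HNU CSS.LGD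
theorem m_CSS_LGM : CSS.LGM_stmt := CSS.LGM CSS.MMB_t
theorem m_CSS_HFE : CSS.HFE_stmt := CSS.HFE m_CSS_HEQ m_CSS_HPB CSS.HUN m_CSS_LGM CSS.LGD
theorem m_CSS_HOL : CSS.HOL_stmt := CSS.HOL YPPS.RAX_p m_CSS_HML m_CSS_HPQ m_CSS_HFE YPPS.LGB_p CSS.LGD CSS.LGT m_CSS_LGM CSS.HBD CSS.HPE CSS.HQB CSS.MMB_t
theorem m_CSS_HLM : CSS.HLM_stmt := CSS.HLM m_CSS_HOL m_CSS_EIN CSS.IFC_t
theorem m_P2S_HLX : P2S.HLX_stmt := P2S.HLX m_CSS_HLM RT.AllE_KO0 RT.AllE_KO1 P2TG.KO3_m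
theorem m_P2S_VDC : P2S.VDC_stmt := P2S.VDC m_P2S_CLB m_P2S_HLX
theorem m_P2S_ZPG : P2S.ZPG_stmt := P2S.ZPG m_P2S_FLC m_P2S_FRS m_P2S_TLS m_P2S_PGR
theorem m_P2S_PGD : P2S.PGD_stmt := P2S.PGD PL.LIV m_P2S_RRG m_P2S_FRS m_P2S_TLS m_P2S_VCF PM.MM_TDF
theorem m_P2S_ZRL : P2S.ZRL_stmt := P2S.ZRL m_P2S_PGD m_P2S_TLS
theorem m_P2S_FLE : P2S.FLE_stmt := P2S.FLE P2S.FLD
theorem m_P2S_EIM : P2S.EIM_stmt := P2S.EIM RT.AllE_KO0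
theorem m_P2S_PZ2 : P2S.PZ2_stmt := P2S.PZ2 PM.MM_TDF RT.AllE_KO0 m_P2S_EIM PLC.CLA_c PLC.FIB_c
theorem m_P2S_PZ3 : P2S.PZ3_stmt := P2S.PZ3 RT.AllE_KO0 P2TG.KO3_m PM.MM_TDF PM.MM_TPM PM.MM_TKO
theorem m_P2S_ZUM : P2S.ZUM_stmt := P2S.ZUM m_P2S_FLC m_P2S_FRX m_P2S_FRS m_P2S_TLX m_P2S_TLS m_P2S_DIC m_P2S_ZPG m_P2S_ZRL m_P2S_FLE m_P2S_PZ2 m_P2S_PZ3 m_P2S_VCF PM.MM_TDF RT.AllE_KO0
theorem m_P2S_GDX : P2S.GDX_stmt := P2S.GDX m_P2S_VKF m_P2S_FLC m_P2S_OSX m_P2S_ZUM m_P2S_eBJ HY.MOB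
theorem m_P2S_PZ1 : P2S.PZ1_stmt := P2S.PZ1 HY.MOB PM.MM_TDF
theorem m_P2S_ROX : P2S.ROX_stmt := P2S.ROX HY.MOB RT.AllE_KO0 m_P2S_NZ m_P2S_ZRL m_P2S_PZ1 PLC.CLA_c m_P2S_FRX m_P2S_TLX
theorem m_P2S_ZO : P2S.ZO_stmt := P2S.ZO m_P2S_GDX m_P2S_ZUM m_P2S_ROX m_P2S_OSX m_P2S_eBJ m_P2S_eCMP m_P2S_FRX m_P2S_TLX m_P2S_VSM m_P2S_VKF m_P2S_VCF PM.MM_TDF
theorem m_P2S_INC : P2S.INC_stmt := P2S.INC HY.MOB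
theorem m_P2S_VDX : P2S.VDX_stmt := P2S.VDX m_P2S_ZO m_P2S_GDX m_P2S_ROX m_P2S_ZUM m_P2S_OSX m_P2S_INC m_P2S_eCMP m_P2S_eBJ m_P2S_FRX m_P2S_TLX m_P2S_TLS m_P2S_ZPG m_P2S_FLC m_P2S_VKF PM.MM_TDF HY.MOB
theorem m_P2SF_EMLO : P2SF.EMLO_stmt := P2SF.EMLO m_P2SF_STGE m_P2S_END m_P2S_VDC m_P2S_VDX m_P2S_FLC m_P2S_VCF PM.MM_TDF
theorem m_P2SF_ZOC : P2SF.ZOC_stmt := P2SF.ZOC m_P2S_GDX m_P2S_ZUM m_P2S_ROX m_P2S_OSX m_P2S_eBJ m_P2S_eCMP m_P2S_FRX m_P2S_TLX m_P2S_VSM m_P2S_VKF m_P2S_VCF PM.MM_TDF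
theorem m_P2SF_GDY : P2SF.GDY_stmt := P2SF.GDY m_P2SF_ZOC m_P2S_GDX m_P2S_ROX m_P2S_ZUM m_P2S_OSX m_P2S_INC m_P2S_eCMP m_P2S_eBJ m_P2S_TLX m_P2S_ZPG m_P2S_FLC m_P2S_VKF HY.MOB
theorem m_P2SF_STQ : P2SF.STQ_stmt := P2SF.STQ m_P2SF_ZOC m_P2SF_GDY m_P2S_ROX m_P2S_ZUM m_P2S_OSX m_P2S_eBJ m_P2S_VKF
theorem m_P2SF_KNX : P2SF.KNX_stmt := P2SF.KNX m_P2SF_GDY m_P2SF_STQ m_P2SF_ZOC m_P2S_NZ m_P2S_FRS P2FM.EXT_m P2FM.CVS_m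
theorem m_P2SF_EKNO : P2SF.EKNO_stmt := P2SF.EKNO m_P2SF_STGE m_P2SF_KNX
theorem m_P2SF_EFLV : P2SF.EFLV_stmt := P2SF.EFLV m_P2SF_EKNO P2FM.SPQ_m m_P2AS_MDC m_P2S_FRX m_P2S_FRS m_P2S_TLX
theorem m_P2SF_EDGN : P2SF.EDGN_stmt := P2SF.EDGN m_P2SF_EMLO m_P2SF_EFLV P2TG.DIA_m
theorem m_P2SF_ESTD : P2SF.ESTD_stmt := P2SF.ESTD RT.AllE_KO0 HY.MOB m_P2S_FRS m_P2S_TLS m_P2AS_MDC P2AM.DNI_m P2F.STL P2FM.DQS_m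
theorem m_P2SF_EOUT : P2SF.EOUT_stmt := P2SF.EOUT m_P2SF_EDGN m_P2SF_ESTD m_P2SF_KNX
theorem m_P2SF_EVB : P2SF.EVB_stmt := P2SF.EVB PM.MM_TKO PM.MM_TDF m_P2S_VCF
theorem m_P2SF_PCB : P2SF.PCB_stmt := P2SF.PCB PM.MM_TKO m_P2S_VCF m_P2S_VKF
theorem m_P2SF_S0S : P2SF.S0S_stmt := P2SF.S0S m_P2SF_EOUT m_P2SF_EVB m_P2SF_PCB m_P2S_VCF PM.MM_TDF
theorem m_P2GS_FRTX : P2GS.FRTX_stmt := P2GS.FRTX PM.MM_TDF m_P2S_VCF P2Z.KO2_m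
theorem m_P2GS_FRTS : P2GS.FRTS_stmt := P2GS.FRTS PM.MM_TDF PM.MM_TPM m_P2S_VCF
theorem m_P2GS_DICT : P2GS.DICT_stmt := P2GS.DICT m_P2GS_FRTS PM.MM_TDF PM.MM_TPM m_P2S_VCF V3.TDE
theorem m_P2GS_KER : P2GS.KER_stmt := P2GS.KER PM.MM_TDF m_P2S_VCF BR.Z_TMO m_P2GS_FRTS
theorem m_P2GS_PSB : P2GS.PSB_stmt := P2GS.PSB m_P2S_FRS m_P2GS_FRTS m_P2S_TLS RT.AllE_KO0
theorem m_P2GS_PSL : P2GS.PSL_stmt := P2GS.PSL m_P2S_FRS m_P2S_TLS PL.DCO PM.MM_TDF m_P2S_VKF m_P2S_VCF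
theorem m_P2GS_REL : P2GS.REL_stmt := P2GS.REL m_P2GS_PSL m_P2GS_PSB PL.LIV m_P2S_RRG PL.DCO PM.MM_TDF m_P2S_VCF
theorem m_P2GS_EXW : P2GS.EXW_stmt := P2GS.EXW EZ.COP_b m_P2S_FRS m_P2S_TLS
theorem m_P2LS_MUL : P2LS.MUL_stmt := P2LS.MUL CSS.IFC_t
theorem m_P2LS_CTR : P2LS.CTR_stmt := P2LS.CTR m_P2LS_MUL
theorem m_P2LS_AFF : P2LS.AFF_stmt := P2LS.AFF m_P2LS_CTR RT.AllE_KO1 P2TG.KO3_m
theorem m_P2GS_FAW : P2GS.FAW_stmt := P2GS.FAW m_P2GS_REL m_P2GS_PSB m_P2LS_AFF P2TG.KO3_m BR.Z_TMO P2TG.DIA_m PM.MM_TDF m_P2S_VCF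
theorem m_P2LS_CELJ : P2LS.CELJ_stmt := P2LS.CELJ CSS.IFC_t m_P2LS_CTR RT.AllE_KO1 P2TG.KO3_m
theorem m_P2LS_DBJ : P2LS.DBJ_stmt := P2LS.DBJ m_P2LS_CELJ
theorem m_P2GS_ENT : P2GS.ENT_stmt := P2GS.ENT m_P2LS_DBJ P2LS.NNR BR.Z_TMO PM.MM_TDF m_P2S_VCF
theorem m_NCS_NCO : NCS.NCO_stmt := NCS.NCO_all PM.MM_TDF PM.MM_TPM PM.MM_TPT PM.MM_TSP PM.MM_TIN PM.MM_TKO RT.AllE_KO0 RT.AllE_KO1 P2TG.KO3_m BR.Z_TMO V3A.TUL_v PL.DCO PL.LIV PLC.FIB_c PLC.CRI_c P2FM.PLG_m CHM.WNI_m P2W.SUC_f m_P2S_VKF m_P2S_VCF m_P2S_TLX m_P2S_FLC m_P2S_FRX m_P2S_FRS m_P2AS_MDN m_P2GS_FRTX m_P2GS_FRTS m_P2GS_DICT m_P2GS_KER m_P2GS_PSB m_P2GS_PSL m_P2GS_REL m_P2GS_EXW m_P2GS_FAW m_P2GS_ENT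
theorem m_P2GS_FLD : P2GS.FLD_stmt := P2GS.FLD m_P2GS_REL P2TG.ITE_m P2TG.PVI_m m_P2GS_PSB PM.MM_TDF m_P2S_VCF
theorem m_P2GS_PSF : P2GS.PSF_stmt := P2GS.PSF m_P2GS_FLD m_P2GS_PSB
theorem m_P2GS_BIN : P2GS.BIN_stmt := P2GS.BIN P2TG.SHD_m m_P2GS_KER P2TG.PVI_m m_P2GS_FRTS PM.MM_TDF m_P2S_VCF m_P2S_VKF
theorem m_P2GS_MXC : P2GS.MXC_stmt := P2GS.MXC m_P2GS_PSL m_P2GS_PSB m_P2AS_MDN m_P2S_DIC m_P2GS_DICT m_P2S_FRS m_P2GS_FRTS PM.MM_TDF PM.MM_TPM m_P2S_VCF PM.MM_TKO RT.AllE_KO0 RT.AllE_KO1 P2TG.KO3_m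
theorem m_P2GS_LWX : P2GS.LWX_stmt := P2GS.LWX PLC.FIB_c PM.MM_TDF m_P2S_VKF m_P2S_VCF m_P2S_FLC m_P2S_FRX m_P2S_TLX m_P2GS_FRTX m_P2GS_PSL m_P2GS_PSB m_P2GS_FAW m_P2GS_ENT m_P2GS_PSF P2TG.TYP_m m_P2GS_BIN m_P2GS_EXW m_P2GS_MXC
theorem m_FINS_J1 : FINS.J1_stmt := FINS.J1 m_P2GS_PSB P2TG.TYP_m PM.MM_TKO PLC.FIB_c PLC.HTM_c
theorem m_FINS_J2 : FINS.J2_stmt := FINS.J2 PM.MM_TDF m_P2S_VCF m_P2GS_FRTS m_P2GS_KER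
theorem m_P2GS_JAR : P2GS.JAR_stmt := P2GS.JAR m_P2S_VKF m_P2S_VCF PM.MM_TDF
theorem m_FINS_J3J : FINS.J3J_stmt := FINS.J3J PM.MM_TDF m_P2S_VCF m_P2GS_PSL m_P2GS_PSB m_P2GS_JAR
theorem m_EGHS_KBU : EGHS.KBU_stmt := EGHS.KBU EGHS.KBI
theorem m_CSS_MIT : CSS.MIT_stmt := CSS.MIT CSS.MMB_t
theorem m_CSS_LVS : CSS.LVS_stmt := CSS.LVS CSS.IFC_t CSS.MMB_t m_CSS_MIT
theorem m_CSS_FEA : CSS.FEA_stmt := CSS.FEA YPPS.LGB_p CSS.LGT CSS.LGD CSS.MMB_t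
theorem m_CSS_FES : CSS.FES_stmt := CSS.FES CSS.IFC_t CSS.MMB_t m_CSS_MIT m_CSS_LVS m_CSS_FEA
theorem m_CSS_NLV : CSS.NLV_stmt := CSS.NLV m_CSS_FES CSS.MTL
theorem m_EGHS_KBJ : EGHS.KBJ_stmt := EGHS.KBJ m_CSS_NLV YPPS.RAX_p m_CSS_MIT
theorem m_FINS_J3 : FINS.J3_stmt := FINS.J3 PM.MM_TDF m_P2S_VCF m_FINS_J3J P2W.RZA_f m_EGHS_KBU m_EGHS_KBJ
theorem m_FINS_FWW : FINS.FWW_stmt := FINS.FWW m_P2LS_AFF PM.MM_TDF m_P2S_VCF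
theorem m_FINS_XW : FINS.XW_stmt := FINS.XW m_P2S_VKF FIN.FNY_m
theorem m_FINS_XZ : FINS.XZ_stmt := FINS.XZ FIN.RZC_m
theorem m_TLS0_VRT : TLS0.VRT_stmt := TLS0.VRT m_P2LS_AFF
theorem m_TLS0_HBI : TLS0.HBI_stmt := TLS0.HBI m_P2GS_FRTS m_P2GS_KER P2TG.PVI_m PM.MM_TDF m_P2S_VCF m_P2S_VKF
theorem m_TLS0_TIL : TLS0.TIL_stmt := TLS0.TIL TLM.TIA_m m_TLS0_VRT m_TLS0_HBI P2TG.DIA_m
theorem m_FINS_TLX : FINS.TLX_stmt := FINS.TLX m_TLS0_TIL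
theorem m_P2LS_ROF : P2LS.ROF_stmt := P2LS.ROF m_P2LS_AFF
theorem m_P2LS_AFP : P2LS.AFP_stmt := P2LS.AFP m_P2LS_AFF P2TG.KO3_m CSS.IFC_t
theorem m_P2LS_ROD : P2LS.ROD_stmt := P2LS.ROD m_P2LS_AFF m_P2LS_AFP
theorem m_P2LS_ROL : P2LS.ROL_stmt := P2LS.ROL m_P2LS_ROD m_P2LS_DBJ
theorem m_P2LS_LDG : P2LS.LDG_stmt := P2LS.LDG CSS.IFC_t P2LS.NNR P2L.CIR_p
theorem m_P2LS_TNN : P2LS.TNN_stmt := P2LS.TNN m_P2LS_AFF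
theorem m_P2LS_OUTR : P2LS.OUTR_stmt := P2LS.OUTR CSS.IFC_t m_P2LS_DBJ m_P2LS_ROF m_P2LS_ROL P2LS.NNR m_P2LS_LDG m_P2LS_TNN P2L.CIR_p
theorem m_P2ZS_CEL : P2ZS.CEL_stmt := P2ZS.CEL RT.AllE_KO1 P2TG.KO3_m
theorem m_P2ZS_DBL : P2ZS.DBL_stmt := P2ZS.DBL56 P2ZS.GAP0_q
theorem m_P2ZS_LOC : P2ZS.LOC_stmt := P2ZS.LOC m_P2ZS_DBL RT.AllE_KO1 P2TG.KO3_m
theorem m_P2ZS_NBH : P2ZS.NBH_stmt := P2ZS.NBH m_P2ZS_DBL m_P2ZS_LOC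
theorem m_P2ZS_PHS : P2ZS.PHS_stmt := P2ZS.PHS m_P2ZS_DBL m_P2ZS_LOC RT.AllE_KO0 P2TG.KO3_m
theorem m_P2ZS_SEP : P2ZS.SEP_stmt := P2ZS.SEP m_P2ZS_LOC
theorem m_P2ZS_LRS : P2ZS.LRS_stmt := P2ZS.LRS P2ZS.ARG_CHN P2Z.WIN_m P2Z.WLC_m P2Z.JMP_m m_P2ZS_LOC m_P2ZS_SEP
theorem m_P2ZS_KBD : P2ZS.KBD_stmt := P2ZS.KBD m_P2ZS_LOC
theorem m_P2ZS_TWO : P2ZS.TWO_stmt := P2ZS.TWO m_P2ZS_KBD P2Z.WLC_m P2Z.WFR P2ZS.ARG_CHN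
theorem m_P2ZS_SHF : P2ZS.SHF_stmt := P2ZS.SHF m_P2ZS_LOC m_P2ZS_SEP m_P2ZS_NBH P2ZS.ARG_CHN P2Z.WHO_m m_P2ZS_LRS
theorem m_P2ZS_ARG : P2ZS.ARG_stmt := P2ZS.ARG P2Z.WHO_m m_P2ZS_PHS m_P2ZS_NBH m_P2ZS_LOC P2ZS.EFC P2ZS.CHE
theorem m_P2ZS_CTB : P2ZS.CTB_stmt := P2ZS.CTB CSS.IFC_t P2LS.NNR
theorem m_P2ZS_OUT : P2ZS.OUT_stmt := P2ZS.OUT m_P2ZS_NBH m_P2ZS_PHS m_P2ZS_LRS m_P2ZS_KBD m_P2ZS_TWO m_P2ZS_SHF m_P2ZS_SEP P2Z.WLC_m P2ZS.ARG_CHN m_P2ZS_ARG m_P2ZS_CTB P2ZS.NIJ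
theorem m_P2ZS_OUTY : P2ZS.OUTY_stmt := P2ZS.OUTY m_P2ZS_OUT P2Z.ROW_m m_P2ZS_SHF m_P2ZS_LRS m_P2ZS_TWO m_P2ZS_NBH m_P2ZS_DBL m_P2ZS_LOC
theorem m_P2ZS_EXZ : P2ZS.EXZ_stmt := P2ZS.EXZ m_P2ZS_PHS
theorem m_CGS_INF : CGS.INF_stmt := CGS.INF m_P2ZS_LRS m_P2ZS_TWO
theorem m_CGS_KCE : CGS.KCE_stmt := CGS.KCE m_P2ZS_LOC CG.NUM
theorem m_CGS_FKC : CGS.FKC_stmt := CGS.FKC CGS.TSH m_CGS_KCE m_P2ZS_LOC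
theorem m_CGS_LSH : CGS.LSH_stmt := CGS.LSH CG.NUM CGS.TSH CG.CSH m_P2ZS_PHS P2ZS.ARG_CHN CH.WNS RT.AllE_KO1
theorem m_CGS_CNT : CGS.CNT_stmt := CGS.CNT CG.NUM m_CGS_FKC m_CGS_LSH P2Z.WFR P2ZS.EFC P2ZS.CHE
theorem m_CGS_ARO : CGS.ARO_stmt := CGS.ARO m_CGS_CNT
theorem m_CGS_SHG : CGS.SHG_stmt := CGS.SHG m_CGS_ARO m_P2ZS_KBD P2Z.WLC_m P2Z.WFR P2ZS.ARG_CHN
theorem m_CGS_BIG : CGS.BIG_stmt := CGS.BIG CG.NUM m_P2ZS_SHF m_P2ZS_NBH m_P2ZS_LRS m_P2ZS_TWO m_P2ZS_SEP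
theorem m_CGS_CPR : CGS.CPR_stmt := CGS.CPR CG.NUM CGS.TSH m_CGS_KCE m_P2ZS_LOC
theorem m_CGS_INV : CGS.INV_stmt := CGS.INV m_CGS_BIG m_CGS_ARO m_CGS_CNT m_CGS_CPR
theorem m_CGS_IJI : CGS.IJI_stmt := CGS.IJI m_CGS_INV m_CGS_ARO
theorem m_CGS_EXH : CGS.EXH_stmt := CGS.EXH CG.NUM CGS.TSH m_P2ZS_EXZ
theorem m_CGS_EXV : CGS.EXV_stmt := CGS.EXV CG.NUM m_CGS_INF m_CGS_BIG m_CGS_ARO m_P2ZS_PHS
theorem m_CGS_PHQ : CGS.PHQ_stmt := CGS.PHQ m_P2ZS_PHS m_P2ZS_NBH m_P2ZS_EXZ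
theorem m_CGS_CGZ : CGS.CGZ_stmt := CGS.CGZ m_P2ZS_CEL m_P2ZS_OUTY m_P2ZS_EXZ CG.NUM m_CGS_INF m_CGS_SHG m_CGS_INV m_CGS_IJI m_CGS_EXH m_CGS_EXV m_CGS_PHQ
theorem m_TLS0_FRB : TLS0.FRB_stmt := TLS0.FRB m_P2ZS_LOC
theorem m_FINS_CGJ : FINS.CGJ_stmt := FINS.CGJ m_P2LS_OUTR m_CGS_CGZ CGS.CGP m_TLS0_FRB TLS0.GPG
theorem m_FINS_JAT : FINS.JAT_stmt := FINS.JAT PM.MM_TDF m_P2S_VCF m_P2GS_PSL m_P2GS_PSB m_P2GS_JAR PL.LIV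
theorem m_FINS_NRX : FINS.NRX_stmt := FINS.NRX FIN.AIN EGH.BOX_m CGS.CRE
theorem m_FINS_EXD : FINS.EXD_stmt := FINS.EXD FIN.RHG_m FIN.CLG CGS.CRE
theorem m_EGHS_LNF : EGHS.LNF_stmt := EGHS.LNF EGH.LIN2_m EGH.LEN2_m EGHS.CVF
theorem m_EGHS_BAS : EGHS.BAS_stmt := EGHS.BAS m_EGHS_KBU
theorem m_EGHS_FXF : EGHS.FXF_stmt := EGHS.FXF P2LS.NNR
theorem m_EGHS_PAR : EGHS.PAR_stmt := EGHS.PAR m_EGHS_KBU m_EGHS_FXF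
theorem m_EGHS_FEW : EGHS.FEW_stmt := EGHS.FEW EGH.DIW_m EGH.RVS_m EGH.RVL_m EGH.NRP_m EGH.RED_m m_EGHS_LNF EGH.IRR_m m_EGHS_BAS m_EGHS_PAR m_EGHS_FXF
theorem m_CGS_CXB : CGS.CXB_stmt := CGS.CXB CGS.CRE CGS.CLN
theorem m_CGS_CXF : CGS.CXF_stmt := CGS.CXF CGS.CLN
theorem m_CGS_CFE : CGS.CFE_stmt := CGS.CFE m_EGHS_FEW CGS.CRW m_CGS_CXB m_CGS_CXF
theorem m_FINS_FIH : FINS.FIH_stmt := FINS.FIH m_FINS_NRX m_FINS_EXD FIN.KPH_m m_CGS_CFE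
theorem m_FINS_FIA : FINS.FIA_stmt := FINS.FIA EGH.ARE EGH.SBR CGS.CRE EGH.ALO2_m
theorem m_FINS_FIX : FINS.FIX_stmt := FINS.FIX m_FINS_FIH m_FINS_FIA FINS.CHJ FINS.DSJ RT.AllE_KO0
theorem m_FINS_FINC : FINS.FINC_stmt := FINS.FINC PM.MM_TDF m_P2S_VCF P2W.WALL_f m_FINS_J1 m_FINS_J2 m_FINS_J3 m_FINS_FWW m_P2GS_PSB m_EGHS_KBJ m_FINS_XW m_FINS_XZ m_FINS_TLX m_FINS_CGJ m_FINS_JAT m_FINS_FIX RT.AllE_KO0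

/-- THEOREM P2_S: no map of class S (transcendental entire, finitely many singular values) has an invariant line field on its Julia set. -/
theorem CS (f : CSS.SE) : ¬ Pool.Agent.helper98.ILF.HasInvariantLineField (fun z : ℂ => f.eval z) :=
  CSU.TOP m_P2S_TPX m_P2S_SSX m_P2SF_S0S GAP0S m_NCS_NCO m_P2GS_LWX m_FINS_FINC f

end CSM

end
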